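import Pool.Agent.R877.RN.Stm

set_option autoImplicit false

/-! Project RN, pieces CHI and CHV: the character as a product of block determinants. -/

namespace R877.RN
open Matrix Filter Topology

namespace CHIw

/-- derivative of the determinant at the identity -/
theorem hasDerivAt_det {k : ℕ} (g : ℝ → Matrix (Fin k) (Fin k) ℝ) (g' : Matrix (Fin k) (Fin k) ℝ)
    (hg : ∀ i j, HasDerivAt (fun t => g t i j) (g' i j) 0) (h1 : g 0 = 1) :
    HasDerivAt (fun t => (g t).det) g'.trace 0 := by
  have h2 : ∀ σ : Equiv.Perm (Fin k), HasDerivAt (fun t => ∏ i, g t (σ i) i)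
      (∑ i, (∏ j ∈ Finset.univ.erase i, g 0 (σ j) j) • g' (σ i) i) 0 := fun σ =>
    HasDerivAt.fun_finsetProd (u := Finset.univ) (f := fun i t => g t (σ i) i)
      (f' := fun i => g' (σ i) i) (fun i _ => hg (σ i) i)
  have h3 : HasDerivAt (fun t => ∑ σ : Equiv.Perm (Fin k),
      ((Equiv.Perm.sign σ : ℤ) : ℝ) * ∏ i, g t (σ i) i)
      (∑ σ : Equiv.Perm (Fin k), ((Equiv.Perm.sign σ : ℤ) : ℝ) *
        ∑ i, (∏ j ∈ Finset.univ.erase i, g 0 (σ j) j) • g' (σ i) i) 0 :=
    HasDerivAt.fun_sum (fun σ _ => (h2 σ).const_mul _)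
  have h4 : (∑ σ : Equiv.Perm (Fin k), ((Equiv.Perm.sign σ : ℤ) : ℝ) *
        ∑ i, (∏ j ∈ Finset.univ.erase i, g 0 (σ j) j) • g' (σ i) i) = g'.trace := by
    rw [Finset.sum_eq_single 1]
    · simp [h1, Matrix.trace]
    · intro σ _ hσ
      rw [Finset.sum_eq_zero, mul_zero]
      intro i _
      have : ∃ j, j ≠ i ∧ σ j ≠ j := by
        by_contra hcon
        push Not at hcon
        apply hσ
        ext j
        by_cases hj : j = i
        · subst hj
          by_contra hne
          have hne' : σ j ≠ j := fun h => hne (by rw [h]; rfl)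
          have := hcon (σ j) hne'
          exact hne' (σ.injective this)
        · rw [hcon j hj]; rfl
      obtain ⟨j, hj, hj'⟩ := this
      rw [Finset.prod_eq_zero (Finset.mem_erase.mpr ⟨hj, Finset.mem_univ j⟩), zero_smul]
      rw [h1, Matrix.one_apply_ne hj']
    · intro h; exact absurd (Finset.mem_univ _) h
  rw [h4] at h3
  have h5 : (fun t => (g t).det) = fun t => ∑ σ : Equiv.Perm (Fin k),
      ((Equiv.Perm.sign σ : ℤ) : ℝ) * ∏ i, g t (σ i) i := by
    funext t
    rw [Matrix.det_apply']
  rw [h5]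
  exact h3

section
attribute [local instance] Matrix.linftyOpNormedRing Matrix.linftyOpNormedAlgebra

lemma exp_entry {n : ℕ} (X : Mat n) (i j : Fin n) :
    HasDerivAt (fun t : ℝ => NormedSpace.exp (t • X) i j) (X i j) 0 := by
  have h := hasDerivAt_exp_smul_const X (0 : ℝ)
  rw [zero_smul, NormedSpace.exp_zero, one_mul] at h
  exact (LinearMap.toContinuousLinearMap
    (Matrix.entryLinearMap ℝ ℝ i j)).hasFDerivAt.comp_hasDerivAt (0 : ℝ) h

lemma exp_hasSum {n : ℕ} (X : Mat n) :
    HasSum (fun m : ℕ => ((m.factorial : ℝ)⁻¹) • X ^ m) (NormedSpace.exp X) :=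
  NormedSpace.exp_series_hasSum_exp' (𝕂 := ℝ) X

/-- exponential of a compression -/
lemma exp_proj {n : ℕ} (P X : Mat n) (hP : P * P = P) (hPX : P * X = X * P) :
    NormedSpace.exp (P * X) = (1 - P) + P * NormedSpace.exp X := by
  have h1 := exp_hasSum (P * X)
  have h2 : HasSum (fun m : ℕ => P * (((m.factorial : ℝ)⁻¹) • X ^ m)) (P * NormedSpace.exp X) :=
    (exp_hasSum X).mul_left P
  have h3 : HasSum (fun m : ℕ => if m = 0 then (1 - P) else 0) (1 - P) := by
    have := hasSum_ite_eq (0 : ℕ) (1 - P)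
    exact this
  have h4 := h3.add h2
  have h5 : (fun m : ℕ => ((m.factorial : ℝ)⁻¹) • (P * X) ^ m) =
      fun m : ℕ => (if m = 0 then (1 - P) else 0) + P * (((m.factorial : ℝ)⁻¹) • X ^ m) := by
    funext m
    rcases m with _ | m
    · simp
    · have hc : Commute P X := hPX
      have hidem : ∀ k : ℕ, P ^ (k + 1) = P := by
        intro k
        induction k with
        | zero => simp
        | succ k ih => rw [pow_succ, ih, hP]
      rw [hc.mul_pow, hidem, if_neg (Nat.succ_ne_zero m), zero_add, Matrix.mul_smul]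
  rw [h5] at h1
  exact h1.unique h4

end

/-- `det exp = exp tr` -/
lemma det_exp {n : ℕ} (X : Mat n) : (NormedSpace.exp X).det = Real.exp X.trace := by
  set f : ℝ → ℝ := fun t => (NormedSpace.exp (t • X)).det with hf
  have hf0 : f 0 = 1 := by simp [hf]
  have hd0 : HasDerivAt f X.trace 0 :=
    hasDerivAt_det (fun t => NormedSpace.exp (t • X)) X (fun i j => exp_entry X i j) (by simp)
  have hadd : ∀ s t, f (s + t) = f s * f t := by
    intro s t
    simp only [hf]
    rw [add_smul, Matrix.exp_add_of_commute _ _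
      ((Commute.refl X).smul_left s |>.smul_right t), Matrix.det_mul]
  have hd : ∀ t, HasDerivAt f (f t * X.trace) t := by
    intro t
    have h1 : f = fun s => f t * f (s - t) := by
      funext s
      rw [← hadd]
      congr 1
      ring
    have h2 : HasDerivAt (fun s : ℝ => s - t) 1 t := (hasDerivAt_id t).sub_const t
    have h3 : HasDerivAt f X.trace (t - t) := by rw [sub_self]; exact hd0
    have h4 : HasDerivAt (fun s => f (s - t)) X.trace t := HasDerivAt.comp_sub_const t t h3
    have h5 := h4.const_mul (f t)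
    rw [← h1] at h5
    exact h5
  have hg : ∀ t, HasDerivAt (fun t => f t * Real.exp (-(t * X.trace))) 0 t := by
    intro t
    have h1 : HasDerivAt (fun t : ℝ => Real.exp (-(t * X.trace)))
        (Real.exp (-(t * X.trace)) * (-(1 * X.trace))) t :=
      (((hasDerivAt_id t).mul_const X.trace).neg).exp
    have h2 := (hd t).mul h1
    have h3 : f t * X.trace * Real.exp (-(t * X.trace)) +
        f t * (Real.exp (-(t * X.trace)) * (-(1 * X.trace))) = 0 := by ring
    rw [h3] at h2
    exact h2
  have hc := is_const_of_deriv_eq_zero (fun t => (hg t).differentiableAt)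
    (fun t => (hg t).deriv) 1 0
  simp only [hf0, one_mul, zero_mul, neg_zero, Real.exp_zero] at hc
  have h1 : f 1 = (NormedSpace.exp X).det := by simp [hf]
  rw [h1] at hc
  have h2 : (NormedSpace.exp X).det * Real.exp (-X.trace) * Real.exp X.trace =
      1 * Real.exp X.trace := by rw [hc]
  rw [mul_assoc, ← Real.exp_add, neg_add_cancel, Real.exp_zero, mul_one, one_mul] at h2
  exact h2

section blocks

variable {n : ℕ} (d : Fin n → ℝ) (v : ℝ)

open Classical in
/-- the projection to the block -/
noncomputable def prj : Mat n := diagonal fun i => if d i = v then 1 else 0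

lemma entry_zero {d : Fin n → ℝ} {Y : Mat n} (hY : Y * diagonal d = diagonal d * Y) {i j : Fin n}
    (h : d i ≠ d j) : Y i j = 0 := by
  have h1 := congrFun (congrFun hY i) j
  rw [Matrix.mul_diagonal, Matrix.diagonal_mul] at h1
  have h2 : (d i - d j) * Y i j = 0 := by linarith
  rcases mul_eq_zero.mp h2 with h3 | h3
  · exact absurd (sub_eq_zero.mp h3) h
  · exact h3

lemma prj_idem : prj d v * prj d v = prj d v := by
  unfold prj
  rw [Matrix.diagonal_mul_diagonal]
  congr 1
  funext i
  split_ifs <;> simp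

lemma prj_comm {d : Fin n → ℝ} {v : ℝ} {Y : Mat n} (hY : Y * diagonal d = diagonal d * Y) :
    prj d v * Y = Y * prj d v := by
  ext i j
  unfold prj
  rw [Matrix.diagonal_mul, Matrix.mul_diagonal]
  by_cases h : d i = d j
  · rw [h, mul_comm]
  · rw [entry_zero hY h, mul_zero, zero_mul]

lemma blk_eq {d : Fin n → ℝ} {v : ℝ} {Y : Mat n} (hY : Y * diagonal d = diagonal d * Y) :
    blk d v Y = (1 - prj d v) + prj d v * Y := by
  ext i j
  rw [Matrix.add_apply, Matrix.sub_apply]
  unfold prj
  rw [Matrix.diagonal_mul, Matrix.one_apply, Matrix.diagonal_apply]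
  unfold blk
  by_cases hi : d i = v
  · by_cases hj : d j = v
    · rw [if_pos ⟨hi, hj⟩]
      simp only [hi, if_true]
      simp
    · have hij : i ≠ j := fun h => hj (h ▸ hi)
      have h0 : Y i j = 0 := entry_zero hY (by rw [hi]; exact fun h => hj h.symm)
      rw [if_neg (fun h => hj h.2), if_neg hij, h0]
      simp [hij]
  · rw [if_neg (fun h => hi h.1)]
    simp only [hi, if_false]
    simp

lemma blk_mul {d : Fin n → ℝ} {v : ℝ} {Y Z : Mat n} (hY : Y * diagonal d = diagonal d * Y)
    (hZ : Z * diagonal d = diagonal d * Z) : blk d v (Y * Z) = blk d v Y * blk d v Z := by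
  have hYZ : Y * Z * diagonal d = diagonal d * (Y * Z) := by
    rw [Matrix.mul_assoc, hZ, ← Matrix.mul_assoc, hY, Matrix.mul_assoc]
  rw [blk_eq hY, blk_eq hZ, blk_eq hYZ]
  have h1 := prj_idem d v
  have h2 := prj_comm (v := v) hY
  have e1 : (1 - prj d v) * (1 - prj d v) = 1 - prj d v := by
    rw [Matrix.sub_mul, Matrix.mul_sub, Matrix.mul_sub, h1]; simp
  have e2 : (1 - prj d v) * (prj d v * Z) = 0 := by
    rw [← Matrix.mul_assoc, Matrix.sub_mul, h1]; simp
  have e3 : prj d v * Y * (1 - prj d v) = 0 := by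
    rw [h2, Matrix.mul_assoc, Matrix.mul_sub, h1]; simp
  have e4 : prj d v * Y * (prj d v * Z) = prj d v * (Y * Z) := by
    rw [← Matrix.mul_assoc, Matrix.mul_assoc (prj d v) Y, ← h2, ← Matrix.mul_assoc, h1,
      Matrix.mul_assoc]
  rw [Matrix.add_mul, Matrix.mul_add, Matrix.mul_add, e1, e2, e3, e4]
  simp

lemma blk_one {d : Fin n → ℝ} {v : ℝ} : blk d v (1 : Mat n) = 1 := by
  rw [blk_eq (by simp)]
  simp

lemma exp_comm {d : Fin n → ℝ} {E : Mat n} (hE : E * diagonal d = diagonal d * E) :
    NormedSpace.exp E * diagonal d = diagonal d * NormedSpace.exp E := by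
  have h1 : HasSum (fun m : ℕ => (((m.factorial : ℝ)⁻¹) • E ^ m) * diagonal d)
      (NormedSpace.exp E * diagonal d) := (exp_hasSum E).mul_right _
  have h2 : HasSum (fun m : ℕ => diagonal d * (((m.factorial : ℝ)⁻¹) • E ^ m))
      (diagonal d * NormedSpace.exp E) := (exp_hasSum E).mul_left _
  have h3 : (fun m : ℕ => (((m.factorial : ℝ)⁻¹) • E ^ m) * diagonal d) =
      fun m : ℕ => diagonal d * (((m.factorial : ℝ)⁻¹) • E ^ m) := by
    funext m
    have hc : Commute E (diagonal d) := hE
    rw [Matrix.smul_mul, Matrix.mul_smul, (hc.pow_left m).eq]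
  rw [h3] at h1
  exact h1.unique h2

lemma det_blk_exp {d : Fin n → ℝ} {v : ℝ} {E : Mat n} (hE : E * diagonal d = diagonal d * E) :
    (blk d v (NormedSpace.exp E)).det = Real.exp (prj d v * E).trace := by
  rw [blk_eq (exp_comm hE), ← exp_proj (prj d v) E (prj_idem d v) (prj_comm hE), det_exp]

lemma chi_eq (c : Mat n) : chi d c =
    ∑ v ∈ Finset.univ.image d, v * Real.log |(blk d v c).det| := by
  unfold chi
  rfl

lemma sum_prj (E : Mat n) : ∑ v ∈ Finset.univ.image d, v * (prj d v * E).trace =
    (diagonal d * E).trace := by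
  classical
  have h1 : ∀ v, v * (prj d v * E).trace = ∑ i, if d i = v then d i * E i i else 0 := by
    intro v
    rw [Matrix.trace, Finset.mul_sum]
    refine Finset.sum_congr rfl fun i _ => ?_
    rw [Matrix.diag_apply]
    unfold prj
    rw [Matrix.diagonal_mul]
    by_cases h : d i = v
    · simp [h]
    · simp [h]
  simp_rw [h1]
  rw [Finset.sum_comm, Matrix.trace]
  refine Finset.sum_congr rfl fun i _ => ?_
  rw [Matrix.diag_apply, Matrix.diagonal_mul, Finset.sum_ite_eq, if_pos]
  exact Finset.mem_image_of_mem _ (Finset.mem_univ i)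

end blocks

lemma inv_comm {n : ℕ} {c D : Mat n} (hc : IsUnit c.det) (h : c * D = D * c) :
    c⁻¹ * D = D * c⁻¹ := by
  calc c⁻¹ * D = c⁻¹ * D * (c * c⁻¹) := by rw [Matrix.mul_nonsing_inv _ hc, Matrix.mul_one]
    _ = c⁻¹ * (D * c) * c⁻¹ := by simp only [Matrix.mul_assoc]
    _ = c⁻¹ * c * D * c⁻¹ := by rw [← h]; simp only [Matrix.mul_assoc]
    _ = D * c⁻¹ := by rw [Matrix.nonsing_inv_mul _ hc, Matrix.one_mul]

lemma det_blk_ne {n : ℕ} {d : Fin n → ℝ} {v : ℝ} {c : Mat n} (hc : IsUnit c.det)
    (h : c * diagonal d = diagonal d * c) : (blk d v c).det ≠ 0 := by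
  have h1 : blk d v c * blk d v c⁻¹ = 1 := by
    rw [← blk_mul h (inv_comm hc h), Matrix.mul_nonsing_inv _ hc, blk_one]
  intro h0
  have h2 := congrArg Matrix.det h1
  rw [Matrix.det_mul, h0, zero_mul, Matrix.det_one] at h2
  exact zero_ne_one h2

end CHIw

open CHIw

/-- CHV -/
theorem p_CHV : P_CHV := by
  intro n d c E hc hcd hE s
  have hsE : (s • E) * diagonal d = diagonal d * (s • E) := by
    rw [Matrix.smul_mul, Matrix.mul_smul, hE]
  rw [chi_eq, chi_eq]
  have h1 : ∀ v ∈ Finset.univ.image d, v * Real.log |(blk d v (NormedSpace.exp (s • E) * c)).det| =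
      v * Real.log |(blk d v c).det| + s * (v * (prj d v * E).trace) := by
    intro v _
    rw [blk_mul (exp_comm hsE) hcd, Matrix.det_mul, det_blk_exp hsE, abs_mul,
      Real.log_mul (by positivity) (abs_ne_zero.mpr (det_blk_ne hc hcd)), abs_of_pos
      (Real.exp_pos _), Real.log_exp, Matrix.mul_smul, Matrix.trace_smul, smul_eq_mul]
    ring
  rw [Finset.sum_congr rfl h1, Finset.sum_add_distrib, ← Finset.mul_sum, sum_prj]

/-- CHI -/
theorem p_CHI : P_CHI := by
  intro n d c l a hc hcd hl hp
  have hl' : lᵀ * l = 1 := mul_eq_one_comm.mp hl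
  -- the logarithm
  set E : Mat n := lᵀ * diagonal a * l with hEdef
  have hexp : NormedSpace.exp ((2 : ℝ) • E) = cᵀ * c := by
    have hU : IsUnit (lᵀ) := by
      rw [Matrix.isUnit_iff_isUnit_det]
      have := congrArg Matrix.det hl'
      rw [Matrix.det_mul, Matrix.det_one] at this
      exact IsUnit.of_mul_eq_one _ this
    have hinv : (lᵀ)⁻¹ = l := Matrix.inv_eq_right_inv hl'
    have h1 : (2 : ℝ) • E = lᵀ * diagonal (fun i => 2 * a i) * (lᵀ)⁻¹ := by
      rw [hinv, hEdef]
      have : diagonal (fun i => 2 * a i) = (2 : ℝ) • diagonal a := by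
        ext i j
        by_cases h : i = j
        · subst h; simp
        · simp [h]
      rw [this, Matrix.mul_smul, Matrix.smul_mul]
    rw [h1, Matrix.exp_conj _ _ hU, Matrix.exp_diagonal, hinv, hp]
    congr 3
    funext i
    rw [Pi.coe_exp, Real.exp_eq_exp_ℝ]
  have hct : cᵀ * diagonal d = diagonal d * cᵀ := by
    have := congrArg Matrix.transpose hcd
    rw [Matrix.transpose_mul, Matrix.transpose_mul, Matrix.diagonal_transpose] at this
    exact this.symm
  have hpd : (cᵀ * c) * diagonal d = diagonal d * (cᵀ * c) := by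
    rw [Matrix.mul_assoc, hcd, ← Matrix.mul_assoc, hct, Matrix.mul_assoc]
  -- `E` commutes with `diagonal d`
  set D' : Mat n := l * diagonal d * lᵀ with hD'
  have hDcomm : diagonal (fun i => Real.exp (2 * a i)) * D' =
      D' * diagonal (fun i => Real.exp (2 * a i)) := by
    have h1 : l * ((cᵀ * c) * diagonal d) * lᵀ = l * (diagonal d * (cᵀ * c)) * lᵀ := by rw [hpd]
    rw [hp] at h1
    have e1 : l * ((lᵀ * diagonal (fun i => Real.exp (2 * a i)) * l) * diagonal d) * lᵀ =
        (l * lᵀ) * diagonal (fun i => Real.exp (2 * a i)) * (l * diagonal d * lᵀ) := by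
      simp only [Matrix.mul_assoc]
    have e2 : l * (diagonal d * (lᵀ * diagonal (fun i => Real.exp (2 * a i)) * l)) * lᵀ =
        (l * diagonal d * lᵀ) * diagonal (fun i => Real.exp (2 * a i)) * (l * lᵀ) := by
      simp only [Matrix.mul_assoc]
    have hl2 : l * lᵀ = 1 := hl
    rw [e1, e2, hl2, Matrix.one_mul, Matrix.mul_one] at h1
    exact h1
  have haD : diagonal a * D' = D' * diagonal a := by
    ext i j
    have h1 := congrFun (congrFun hDcomm i) j
    rw [Matrix.diagonal_mul, Matrix.mul_diagonal] at h1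
    rw [Matrix.diagonal_mul, Matrix.mul_diagonal]
    by_cases h0 : D' i j = 0
    · rw [h0]; ring
    · have h2 : Real.exp (2 * a i) = Real.exp (2 * a j) := by
        have : (Real.exp (2 * a i) - Real.exp (2 * a j)) * D' i j = 0 := by linarith
        rcases mul_eq_zero.mp this with h3 | h3
        · linarith
        · exact absurd h3 h0
      have h3 : a i = a j := by
        have := Real.exp_injective h2
        linarith
      rw [h3, mul_comm]
  have hE : E * diagonal d = diagonal d * E := by
    have e1 : E * diagonal d = lᵀ * (diagonal a * D') * l := by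
      rw [hEdef, hD']
      have : lᵀ * (diagonal a * (l * diagonal d * lᵀ)) * l =
          lᵀ * diagonal a * l * diagonal d * (lᵀ * l) := by
        simp only [Matrix.mul_assoc]
      rw [this, hl', Matrix.mul_one]
    have e2 : diagonal d * E = lᵀ * (D' * diagonal a) * l := by
      rw [hEdef, hD']
      have : lᵀ * ((l * diagonal d * lᵀ) * diagonal a) * l =
          (lᵀ * l) * diagonal d * (lᵀ * diagonal a * l) := by
        simp only [Matrix.mul_assoc]
      rw [this, hl', Matrix.one_mul]
    rw [e1, e2, haD]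
  have h2E : ((2 : ℝ) • E) * diagonal d = diagonal d * ((2 : ℝ) • E) := by
    rw [Matrix.smul_mul, Matrix.mul_smul, hE]
  have hblkT : ∀ v, blk d v cᵀ = (blk d v c)ᵀ := by
    intro v
    rw [blk_eq hct, blk_eq hcd]
    rw [Matrix.transpose_add, Matrix.transpose_sub, Matrix.transpose_one, Matrix.transpose_mul,
      prj_comm hct]
    have : (prj d v)ᵀ = prj d v := by unfold prj; rw [Matrix.diagonal_transpose]
    rw [this]
  have hlog : ∀ v, Real.log |(blk d v c).det| = (prj d v * E).trace := by
    intro v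
    have h1 : (blk d v (cᵀ * c)).det = (blk d v c).det * (blk d v c).det := by
      rw [blk_mul hct hcd, Matrix.det_mul, hblkT, Matrix.det_transpose]
    rw [← hexp, det_blk_exp h2E] at h1
    have h2 := congrArg Real.log h1
    rw [Real.log_exp, Real.log_mul (det_blk_ne hc hcd) (det_blk_ne hc hcd), Matrix.mul_smul,
      Matrix.trace_smul, smul_eq_mul] at h2
    rw [Real.log_abs]
    linarith
  rw [chi_eq]
  simp_rw [hlog]
  rw [sum_prj, hEdef]
  have h1 : (diagonal d * (lᵀ * diagonal a * l)).trace = (l * diagonal d * lᵀ * diagonal a).trace := by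
    rw [← Matrix.mul_assoc, Matrix.trace_mul_comm]
    simp only [Matrix.mul_assoc]
  rw [h1, Matrix.trace]
  refine Finset.sum_congr rfl fun i _ => ?_
  rw [Matrix.diag_apply, Matrix.mul_diagonal, mul_comm]

end R877.RN
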